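import Pool.Agent.Lib.MP_977f72_an.h30.Main
import Pool.Agent.Lib.MP_977f72_an.h30.Furst

/-!
# MP_977f72_an, Q1: a negative answer

There is a second countable locally compact group `G` whose Furstenberg boundary has a point with
trivial stabilizer, but whose reduced group `C*`-algebra is not simple.
-/

set_option autoImplicit false

open MeasureTheory

namespace Pool.Agent.Results.MP_977f72_an.FreeNotSimple

open Pool.Agent.MP977

/-- The group `G` has a Furstenberg boundary. -/
def HasFurstenberg (G : Type) [Group G] [TopologicalSpace G] : Prop :=
  ∃ (B : Type) (_ : TopologicalSpace B) (_ : CompactSpace B) (_ : T2Space B)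
    (_ : MulAction G B) (_ : ContinuousSMul G B), IsFurstenbergBoundary G B

/-- Every Furstenberg boundary of `G` contains a point with trivial stabilizer. -/
def FreePointInFurstenberg (G : Type) [Group G] [TopologicalSpace G] : Prop :=
  ∀ (B : Type) [TopologicalSpace B] [CompactSpace B] [T2Space B] [MulAction G B]
    [ContinuousSMul G B], IsFurstenbergBoundary G B → ∃ z : B, MulAction.stabilizer G z = ⊥

/-- The reduced `C*`-algebra of `G` is not simple (for every left Haar measure). -/
def ReducedNotSimple (G : Type) [Group G] [TopologicalSpace G] [IsTopologicalGroup G]
    [LocallyCompactSpace G] [T2Space G] [SecondCountableTopology G] : Prop :=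
  ∀ [MeasurableSpace G] [BorelSpace G] (μ : Measure G) [μ.IsHaarMeasure],
    ¬ IsSimpleAlg (reducedCStar μ)

/-- There is a second countable locally compact Hausdorff group `G` such that
* `G` has a Furstenberg boundary, and every Furstenberg boundary of `G` contains a point with
  trivial stabilizer;
* for every left Haar measure, the reduced `C*`-algebra of `G` is not simple. -/
theorem result :
    ∃ (G : Type) (_ : Group G) (_ : TopologicalSpace G) (_ : IsTopologicalGroup G)
      (_ : LocallyCompactSpace G) (_ : T2Space G) (_ : SecondCountableTopology G),
      HasFurstenberg G ∧ FreePointInFurstenberg G ∧ ReducedNotSimple G := by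
  refine ⟨theTower.Lim, inferInstance, inferInstance, inferInstance, inferInstance,
    inferInstance, inferInstance, exists_furstenberg _, ?_, ?_⟩
  · intro B _ _ _ _ _ hB
    exact free_of_furstenberg (bdData theTower) B hB
  · intro _ _ μ _
    exact lim_not_simple theTower μ

end Pool.Agent.Results.MP_977f72_an.FreeNotSimple
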